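import Mathlib
import Pool.Agent.TH900.QM.Meas

set_option autoImplicit false

/-!
# Catalan's constant and `π²`: two rational lines of periods without rational points

Catalan's constant `G = ∑ (-1)^j/(2j+1)^2` and `π²` are periods of a mixed Tate Nori motive over `ℚ(i)`
(an extension of `ℚ(0)` by `ℚ(2)`). The period conjecture predicts that `G` and `π` are algebraically
independent, in particular that `1, G, π²` are linearly independent over `ℚ`. Here the two linear combinations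
`8 G ± 5π²/6` are shown to be irrational, with a polynomial irrationality measure.
-/

namespace Pool.Agent.Results.MP_12eca1_ag.CatalanPeriods

/-- Catalan's constant `G = ∑ (-1)^j/(2j+1)^2`. -/
noncomputable def catalan : ℝ := ∑' j : ℕ, (-1 : ℝ) ^ j / (2 * (j : ℝ) + 1) ^ 2

/-- **Irrationality measure of `8 G + 5π²/6` and `8 G - 5π²/6`.**
(1) For `s = 1` and `s = -1` there is `c > 0` with `|8 G + s 5π²/6 - a/b| ≥ c / b^586` for all integers
`a` and `b ≥ 1`; (2) both numbers are irrational and not Liouville numbers; (3) there is `c > 0` such that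
`|x + y (48 G + 5 π²)| ≥ c / |y|^585` and `|x + y (48 G - 5 π²)| ≥ c / |y|^585` for all integers `x` and
`y ≠ 0`: no integer linear form in `1, G, π²` whose last two coefficients are proportional to
`(48, 5)` or to `(48, -5)` vanishes or is very small. -/
theorem result :
    (∀ s : ℝ, (s = 1 ∨ s = -1) → ∃ c : ℝ, 0 < c ∧ ∀ (a : ℤ) (b : ℕ), 0 < b →
      c / (b : ℝ) ^ 586 ≤ |8 * catalan + s * (5 * Real.pi ^ 2 / 6) - (a : ℝ) / b|) ∧
    (∀ s : ℝ, (s = 1 ∨ s = -1) → Irrational (8 * catalan + s * (5 * Real.pi ^ 2 / 6)) ∧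
      ¬ Liouville (8 * catalan + s * (5 * Real.pi ^ 2 / 6))) ∧
    (∀ s : ℝ, (s = 1 ∨ s = -1) → ∃ c : ℝ, 0 < c ∧ ∀ x y : ℤ, y ≠ 0 →
      c / |(y : ℝ)| ^ 585 ≤ |(x : ℝ) + y * (48 * catalan + s * (5 * Real.pi ^ 2))|) := by
  have key : ∀ s : ℝ, (s = 1 ∨ s = -1) → ∃ c : ℝ, 0 < c ∧ ∀ (a : ℤ) (b : ℕ), 0 < b →
      c / (b : ℝ) ^ 586 ≤ |8 * catalan + s * (5 * Real.pi ^ 2 / 6) - (a : ℝ) / b| :=
    fun s hs => Pool.Agent.TH900.QM.main s hs
  refine ⟨key, fun s hs => ?_, fun s hs => ?_⟩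
  · obtain ⟨c, hc, h⟩ := key s hs
    have hirr : Irrational (8 * catalan + s * (5 * Real.pi ^ 2 / 6)) := by
      rintro ⟨r, hr⟩
      have h1 := h r.num r.den r.den_pos
      rw [← hr] at h1
      have h2 : ((r : ℝ)) - (r.num : ℝ) / (r.den : ℝ) = 0 := by
        have h3 : (r : ℝ) = (r.num : ℝ) / (r.den : ℝ) := Rat.cast_def r
        rw [h3, sub_self]
      rw [h2, abs_zero] at h1
      have h4 : 0 < c / (r.den : ℝ) ^ 586 := by
        have : (0 : ℝ) < r.den := by exact_mod_cast r.den_pos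
        positivity
      linarith
    refine ⟨hirr, fun hL => ?_⟩
    -- a Liouville number is approximated to order `587 + k` for suitable `k`
    obtain ⟨k, hk⟩ := exists_nat_gt (1 / c)
    obtain ⟨a, b, hb1, -, hab⟩ := hL (586 + k)
    have hb0 : 0 < b := by linarith
    have hbR : (2 : ℝ) ≤ b := by exact_mod_cast (by linarith : (2 : ℤ) ≤ b)
    have hb' : ((b.toNat : ℕ) : ℤ) = b := Int.toNat_of_nonneg hb0.le
    have hbN : ((b.toNat : ℕ) : ℝ) = (b : ℝ) := by exact_mod_cast hb'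
    have h1 := h a b.toNat (by
      have : (0 : ℤ) < (b.toNat : ℤ) := by rw [hb']; exact hb0
      exact_mod_cast this)
    rw [hbN] at h1
    have h2 : c / (b : ℝ) ^ 586 < 1 / (b : ℝ) ^ (586 + k) := lt_of_le_of_lt h1 hab
    have hbp : (0 : ℝ) < (b : ℝ) ^ 586 := by positivity
    rw [pow_add, div_lt_div_iff₀ hbp (by positivity)] at h2
    have h3 : c * (b : ℝ) ^ k < 1 := by
      have h4 : c * (b : ℝ) ^ k * (b : ℝ) ^ 586 < 1 * (b : ℝ) ^ 586 := by
        calc c * (b : ℝ) ^ k * (b : ℝ) ^ 586 = c * ((b : ℝ) ^ 586 * (b : ℝ) ^ k) := by ring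
          _ < 1 * (b : ℝ) ^ 586 := h2
      exact lt_of_mul_lt_mul_right h4 hbp.le
    have h5 : (k : ℝ) ≤ (b : ℝ) ^ k := by
      have h6 : (k : ℝ) < 2 ^ k := by exact_mod_cast Nat.lt_two_pow_self
      have h7 : (2 : ℝ) ^ k ≤ (b : ℝ) ^ k := pow_le_pow_left₀ (by norm_num) hbR k
      linarith
    have h6 : 1 < c * k := by
      rw [div_lt_iff₀ hc] at hk
      linarith
    have h7 : c * k ≤ c * (b : ℝ) ^ k := mul_le_mul_of_nonneg_left h5 hc.le
    linarith
  · obtain ⟨c, hc, h⟩ := key s hs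
    refine ⟨6 * c / 6 ^ 586, by positivity, fun x y hy => ?_⟩
    have hyN : 0 < y.natAbs := Int.natAbs_pos.2 hy
    have hyR : ((y.natAbs : ℕ) : ℝ) = |(y : ℝ)| := by
      rw [Nat.cast_natAbs, Int.cast_abs]
    have hy0 : (0 : ℝ) < |(y : ℝ)| := by
      rw [← hyR]
      exact_mod_cast hyN
    -- sign of `y`
    obtain ⟨e, he, hey⟩ : ∃ e : ℤ, (e = 1 ∨ e = -1) ∧ (y : ℝ) = e * |(y : ℝ)| := by
      rcases lt_or_gt_of_ne hy with h1 | h1
      · refine ⟨-1, Or.inr rfl, ?_⟩
        have : (y : ℝ) < 0 := by exact_mod_cast h1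
        rw [abs_of_neg this]
        push_cast
        ring
      · refine ⟨1, Or.inl rfl, ?_⟩
        have : (0 : ℝ) < y := by exact_mod_cast h1
        rw [abs_of_pos this]
        push_cast
        ring
    have h1 := h (-(e * x)) (6 * y.natAbs) (by omega)
    have hc6 : (((6 * y.natAbs : ℕ) : ℝ)) = 6 * |(y : ℝ)| := by
      rw [← hyR]
      push_cast
      ring
    rw [hc6] at h1
    have he2 : (e : ℝ) * e = 1 := by
      rcases he with rfl | rfl <;> norm_num
    have habs : |(e : ℝ)| = 1 := by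
      rcases he with rfl | rfl <;> norm_num
    have h2 : (x : ℝ) + y * (48 * catalan + s * (5 * Real.pi ^ 2)) =
        e * (6 * |(y : ℝ)|) * (8 * catalan + s * (5 * Real.pi ^ 2 / 6) -
          ((-(e * x) : ℤ) : ℝ) / (6 * |(y : ℝ)|)) := by
      have hne : (6 * |(y : ℝ)|) ≠ 0 := by positivity
      rw [mul_sub, mul_assoc (e : ℝ) (6 * |(y : ℝ)|) (((-(e * x) : ℤ) : ℝ) / (6 * |(y : ℝ)|)),
        mul_div_cancel₀ _ hne]
      push_cast
      rw [show (e : ℝ) * (-((e : ℝ) * x)) = -(((e : ℝ) * e) * x) by ring, he2]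
      conv_lhs => rw [hey]
      ring
    rw [h2, abs_mul, abs_mul, habs, one_mul, abs_of_pos (by positivity : (0 : ℝ) < 6 * |(y : ℝ)|)]
    calc 6 * c / 6 ^ 586 / |(y : ℝ)| ^ 585 = 6 * |(y : ℝ)| * (c / (6 * |(y : ℝ)|) ^ 586) := by
          rw [mul_pow, pow_succ |(y : ℝ)| 585]
          field_simp
      _ ≤ _ := mul_le_mul_of_nonneg_left h1 (by positivity)

end Pool.Agent.Results.MP_12eca1_ag.CatalanPeriods
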