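import Pool.Agent.R347.LC.Gen
import Pool.Agent.Results.MP_12eca1_ag.CatalanPeriods

/-!
# Catalan's constant and `π²` over fields generated by Liouville numbers

Let `q_0, q_1, …` be integers `≥ 2`. A real number `x` is *approximable* if for some `h` and every `κ` there
are, for all large `k`, integers `u` and `1 ≤ v ≤ q_k ^ h` with `|x - u / v| ≤ q_k ^ (-κ)`. The approximable
numbers form a field. Every Liouville number `ξ` is approximable for some sequence, so that `ℚ(ξ)` is contained in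
such a field; for `q_k = 2 ^ ((k + 2)!)` the field has transcendence degree the cardinality of the continuum.

**Theorem.** Let `L` be a field of approximable numbers, for example `ℚ(ξ)` for any Liouville number `ξ`, and let `G`
be Catalan's constant. The numbers `48 G + 5 π²` and `48 G - 5 π²` are not in `L`.

These numbers are `ℚ`-linear combinations of periods of an extension of `ℚ(0)` by `ℚ(2)` over `ℚ(i)`. The coefficients
in `L` are approximated by rational numbers with a common denominator, and the measures of irrationality in the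
starting file `Pool/Agent/Results/MP_12eca1_ag/CatalanPeriods.lean` are used.
-/

set_option autoImplicit false

namespace Pool.Agent.Results.MP_12eca1_ag.LiouvilleCoefficients

/-- For some `h` and every `κ`, for all large `k`, there are integers `u` and `1 ≤ v ≤ (q k) ^ h` with
`|x - u / v| ≤ (q k) ^ (-κ)`. -/
def Approximable (q : ℕ → ℕ) (x : ℝ) : Prop :=
  ∃ h : ℕ, ∀ κ : ℕ, ∃ k₀ : ℕ, ∀ k ≥ k₀, ∃ (u : ℤ) (v : ℕ), 1 ≤ v ∧ v ≤ q k ^ h ∧
    |x - (u : ℝ) / v| ≤ (((q k : ℕ) : ℝ) ^ κ)⁻¹

/-- Catalan's constant `G = ∑ (-1)^j/(2j+1)^2`. -/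
noncomputable def catalan : ℝ := ∑' j : ℕ, (-1 : ℝ) ^ j / (2 * (j : ℝ) + 1) ^ 2

/-- `1` and `48 G + 5 π²` are linearly independent over `L`, and so are `1` and `48 G - 5 π²`. -/
def Good (L : IntermediateField ℚ ℝ) : Prop :=
  LinearIndependent L ![(1 : ℝ), 48 * catalan + 5 * Real.pi ^ 2] ∧
    LinearIndependent L ![(1 : ℝ), 48 * catalan - 5 * Real.pi ^ 2]

/-- The sequence `2 ^ ((k + 2)!)`. -/
def q₀ (k : ℕ) : ℕ := 2 ^ (k + 2).factorial

theorem pair_of {L : IntermediateField ℚ ℝ} {x : ℝ} (hx : x ∉ L) : LinearIndependent L ![(1 : ℝ), x] := by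
  rw [LinearIndependent.pair_iff]
  intro s t hst
  have h1 : (s : ℝ) + t * x = 0 := by
    have : (s : ℝ) * 1 + t * x = 0 := hst
    linarith
  have ht : t = 0 := by
    by_contra h
    apply hx
    have h3 : (t : ℝ) ≠ 0 := fun h' => h (by exact_mod_cast h')
    have h4 : x = ((-s / t : L) : ℝ) := by
      push_cast
      rw [eq_div_iff h3]
      linarith
    rw [h4]
    exact (-s / t : L).2
  rw [ht] at h1
  refine ⟨?_, ht⟩
  have : (s : ℝ) = 0 := by simpa using h1
  exact_mod_cast this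

theorem good_of {q : ℕ → ℕ} (hq : ∀ k, 2 ≤ q k) (L : IntermediateField ℚ ℝ)
    (hL : ∀ x ∈ L, Approximable q x) : Good L := by
  have key : ∀ s : ℝ, (s = 1 ∨ s = -1) → 48 * catalan + s * (5 * Real.pi ^ 2) ∉ L := by
    intro s hs hmem
    obtain ⟨c, hc, h⟩ := Pool.Agent.Results.MP_12eca1_ag.CatalanPeriods.result.1 s hs
    obtain ⟨i, hi⟩ := Pool.Agent.R347.LC.simul hq L hL (ι := Unit)
      (fun _ => 8 * catalan + s * (5 * Real.pi ^ 2 / 6)) ⟨c, 586, hc, fun v a hv => ⟨(), h (a ()) v hv⟩⟩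
    apply hi
    have h6 : ((6 : ℚ) : ℝ) ∈ L := L.algebraMap_mem 6
    have h1 : 8 * catalan + s * (5 * Real.pi ^ 2 / 6) =
        (48 * catalan + s * (5 * Real.pi ^ 2)) / ((6 : ℚ) : ℝ) := by
      push_cast
      ring
    change 8 * catalan + s * (5 * Real.pi ^ 2 / 6) ∈ L
    rw [h1]
    exact L.div_mem hmem h6
  refine ⟨pair_of ?_, pair_of ?_⟩
  · have := key 1 (Or.inl rfl)
    rwa [one_mul] at this
  · have := key (-1) (Or.inr rfl)
    rwa [neg_one_mul, ← sub_eq_add_neg] at this

/-- **Main result.** -/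
theorem result :
    -- the approximable numbers form a field
    (∀ q : ℕ → ℕ, (∀ k, 2 ≤ q k) → ∃ L : IntermediateField ℚ ℝ, ∀ x, x ∈ L ↔ Approximable q x) ∧
    -- the transcendence degree of the field for the explicit sequence
    ((∀ k, 2 ≤ q₀ k) ∧ ∀ L : IntermediateField ℚ ℝ, (∀ x, x ∈ L ↔ Approximable q₀ x) →
      Algebra.trdeg ℚ L = Cardinal.continuum) ∧
    -- the statement over all fields of approximable numbers
    (∀ q : ℕ → ℕ, (∀ k, 2 ≤ q k) → ∀ L : IntermediateField ℚ ℝ, (∀ x ∈ L, Approximable q x) →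
      Good L) ∧
    -- in particular over the field `ℚ(ξ)` for a Liouville number `ξ`
    (∀ ξ : ℝ, Liouville ξ → Good (IntermediateField.adjoin ℚ {ξ})) := by
  refine ⟨Pool.Agent.R347.LC.field_ex, ⟨Pool.Agent.R347.LC.two_le_qe,
    Pool.Agent.R347.LC.trdeg_qe⟩, fun q hq L hL => good_of hq L hL, fun ξ hξ => ?_⟩
  obtain ⟨q, hq, h⟩ := Pool.Agent.R347.LC.of_liouville hξ
  exact good_of hq _ h

end Pool.Agent.Results.MP_12eca1_ag.LiouvilleCoefficients
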