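import Pool.Agent.R437.Met.Cf
import Pool.Agent.Results.MP_12eca1_ag.ArbitraryBasePoints

/-!
# The period conjecture over arbitrary fields, at the arguments `h(z)`, `z` algebraic near a given point

We use the families and the functions `h` of the starting file `ArbitraryBasePoints`: `n` families over `V_1, …, V_n` of
elliptic curves with sections and towers of integrals (built from the periods of motives `M_x`, `x` in `V_j`), and
arbitrary nonconstant analytic functions `h_j` on `U_j` with values in `V_j`. The generalised period conjecture (André)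
is about motives over arbitrary subfields of `ℂ`. For an arbitrary complex number `x` it says that in general the field
generated by `x` and the `N = 3 + 2 r + s + q` periods of `M_x` has transcendence degree at least `N`, also over the
field generated by `π`. We prove this in bounded degree and height near every point outside a small set: let `F` be a
number field in `ℂ` and `c_0, c_1, …` any complex numbers, for instance all monomials in `π` and in the generators and
periods of any other motive. For every `τ > 0` and all `ξ` in `U ^ n`, `U = U_1 ∩ ⋯ ∩ U_n`, outside a set of Hausdorff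
dimension at most `2 [F : ℚ] (n - 1) / τ`, the `n`-tuples `z` of elements of `F` of height at most `T`, `T` large, with
`|ξ_j - z_j| ≤ C T ^ (-τ)` have the following property: all but one of the numbers `h_j(z_j)` and periods at
`h_j(z_j)`, for all `j` together, satisfy no relation, not even an approximate one, of degree at most `d` whose
coefficients are linear combinations of `c_0, …, c_(g-1)` with coefficients in `F` of height at most `T ^ A`. For
`n = 1` the exceptional set has dimension zero, for every `τ > 0`. The starting file bounds the number of the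
exceptional tuples.
-/

set_option autoImplicit false

open NumberField

namespace Pool.Agent.Results.MP_12eca1_ag.NearEveryPoint

open Pool.Agent.R437.Met
open ArbitraryBasePoints (Family Map value)

/-- The elements of the number field `F` which are quotients of two integers of `F` all of whose conjugates have
absolute value at most `T`. -/
def Points (F : Type) [Field F] [NumberField F] (T : ℝ) : Set F :=
  {x | ∃ a b : 𝓞 F, b ≠ 0 ∧ (∀ φ : F →+* ℂ, ‖φ a‖ ≤ T ∧ ‖φ b‖ ≤ T) ∧ x = a / b}

/-- There is a polynomial `P` of degree at most `d` in each variable, with coefficients of the form `∑ c_i ι(a_i)`,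
where the `a_i` are integers of `F` all of whose conjugates have absolute value at most `T ^ A`, such that the value
of `P` at the numbers `v j (ι (x j)) i` is at most `T ^ (-B)` times the absolute value of some nonzero coefficient of
`P`. -/
def Related {n g : ℕ} {J : Fin n → Type} (v : ∀ j, ℂ → J j → ℂ) (F : Type) [Field F] [NumberField F]
    (ι : F →+* ℂ) (c : Fin g → ℂ) (d : ℕ) (A B T : ℝ) (x : Fin n → F) : Prop :=
  ∃ P : MvPolynomial (Σ j, J j) ℂ, (∀ y, P.degreeOf y ≤ d) ∧
    (∀ s, ∃ a : Fin g → 𝓞 F, (∀ i (φ : F →+* ℂ), ‖φ (a i)‖ ≤ T ^ A) ∧ P.coeff s = ∑ i, c i * ι (a i)) ∧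
    ∃ s₀, P.coeff s₀ ≠ 0 ∧
      ‖MvPolynomial.aeval (fun y : Σ j, J j => v y.1 (ι (x y.1)) y.2) P‖ ≤ T ^ (-B) * ‖P.coeff s₀‖

/-- **Points near a given point.** For `n ≥ 1` families over `V_1, …, V_n` and nonconstant analytic functions `h_j` on
`U_j` with values in `V_j` (equal or different) one can choose, for each `j`, all but one of the `4 + 2 r_j + s_j + q_j`
functions `h_j(z)`, periods at `h_j(z)`, such that for every number field `F` with an embedding `ι` in `ℂ`, every
sequence `c` of complex numbers and every `τ > 0` there is a set `E` of Hausdorff dimension at most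
`2 [F : ℚ] (n - 1) / τ` such that for all `ξ` outside `E` with `ξ_1, …, ξ_n` in all `U_j` and all `g`, `d`, `A` there is
`B` such that for all `C` and all large `T`: for the `n`-tuples `z` of elements of `F` of height at most `T` with
`|ξ_j - ι(z_j)| ≤ C T ^ (-τ)` for all `j` the values of the chosen functions at the `z_j` satisfy no relation (in the
sense of `Related`) with coefficients that are linear combinations of the first `g` of the numbers `c`. -/
theorem result {n : ℕ} (hn : 1 ≤ n) {r s q : Fin n → ℕ} (V : Fin n → Set ℂ) (Λ : Fin n → ℂ → PeriodPair)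
    (u : ∀ j, Fin (r j) → ℂ → ℂ) (t : ∀ j, Fin (s j) → ℂ → ℂ) (N : ∀ j, Fin (q j) → Fin (r j) → ℤ)
    (S : ∀ j, Fin (q j) → ℂ → ℂ) (hV : ∀ j, Family (V j) (Λ j) (u j) (t j) (N j) (S j))
    (U : Fin n → Set ℂ) (h : Fin n → ℂ → ℂ) (hU : ∀ j, Map (U j) (V j) (h j)) :
    ∃ e : ∀ j, Fin (3 + 2 * r j + s j + q j) →
        Option (Fin 3 ⊕ (Fin (r j) ⊕ (Fin (r j) ⊕ (Fin (s j) ⊕ Fin (q j))))), (∀ j, Function.Injective (e j)) ∧
      ∀ (F : Type) [Field F] [NumberField F] (ι : F →+* ℂ) (c : ℕ → ℂ) (τ : ℝ), 0 < τ →
      ∃ E : Set (Fin n → ℂ), dimH E ≤ ENNReal.ofReal (2 * (Module.finrank ℚ F : ℝ) * ((n : ℝ) - 1) / τ) ∧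
        ∀ ξ : Fin n → ℂ, (∀ j i, ξ j ∈ U i) → ξ ∉ E → ∀ (g d : ℕ) (A : ℝ), ∃ B : ℝ, ∀ C : ℝ, ∃ T₁ : ℝ,
          ∀ T : ℝ, T₁ ≤ T → ∀ z : Fin n → F,
            (∀ j, z j ∈ Points F T ∧ ‖ξ j - ι (z j)‖ ≤ C * T ^ (-τ)) →
              ¬ Related (fun j z k => value (Λ j) (u j) (t j) (S j) (h j z) (e j k)) F ι
                (fun i : Fin g => c i) d A B T z := by
  obtain ⟨e, he, H⟩ := ArbitraryBasePoints.result V Λ u t N S hV U h hU
  refine ⟨e, he, fun F _ _ ι c τ hτ => ?_⟩
  obtain ⟨E, hE, h⟩ := Cf.near n hn F (fun (x : Fin n → F) (y : Σ j, Fin (3 + 2 * r j + s j + q j)) =>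
      value (Λ y.1) (u y.1) (t y.1) (S y.1) (h y.1 (ι (x y.1))) (e y.1 y.2)) ι c
    (fun _ => ⋂ i, U i) (fun _ => isOpen_iInter_of_finite fun i => (hU i).isOpen)
    (by
      intro K hK hKS g d A ε hε
      have hK' : IsCompact (⋃ j, K j) := isCompact_iUnion hK
      have hKU : ∀ j, (⋃ j, K j) ⊆ U j := fun j => Set.iUnion_subset fun i =>
        (hKS i).trans (Set.iInter_subset _ j)
      obtain ⟨B, C, T₀, h'⟩ := H (⋃ j, K j) hK' hKU (Module.finrank ℚ F) g d A ε hε
      refine ⟨B, C, T₀, ⋃ j, K j, fun T hT => ?_⟩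
      obtain ⟨h1, h2⟩ := h' F le_rfl ι (fun i : Fin g => c i) T hT
      have hsub : {x : Fin n → F | (∀ j, ι (x j) ∈ K j ∧ Hs.IsPt F T (x j)) ∧
          Cf.Rel F (fun (x : Fin n → F) (y : Σ j, Fin (3 + 2 * r j + s j + q j)) =>
            value (Λ y.1) (u y.1) (t y.1) (S y.1) (h y.1 (ι (x y.1))) (e y.1 y.2)) ι
            (fun i : Fin g => c i) d A B T x} ⊆
          ArbitraryBasePoints.Exceptional n d (fun j z k => value (Λ j) (u j) (t j) (S j) (h j z) (e j k)) F ι
            (fun i : Fin g => c i) (⋃ j, K j) A B T := by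
        rintro x ⟨h3, h4⟩
        exact ⟨fun j => ⟨Set.mem_iUnion.2 ⟨j, (h3 j).1⟩, (h3 j).2⟩, h4⟩
      refine ⟨h1.subset hsub, le_trans ?_ h2⟩
      exact_mod_cast Set.ncard_le_ncard hsub h1)
    τ hτ
  exact ⟨E, hE, fun ξ hξ hξE g d A => h ξ (fun j => Set.mem_iInter.2 (hξ j)) hξE g d A⟩

end Pool.Agent.Results.MP_12eca1_ag.NearEveryPoint
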