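import Pool.Agent.R917.OM.Brk

set_option autoImplicit false

/-!
# The period conjecture for 1-motives, in terms of torsors: the unipotent radical of 1-motives with
a non-split semiabelian variety

Let `A` be an abelian variety over the field `ℚ̄` of algebraic numbers, with a polarization `φ`. Let
`P_i = exp(u_i)` and `Q_l = φ(exp(v_l))` be algebraic points of `A` and of the dual abelian variety,
`G` the extension of `A` by `G_m^s` given by the `Q_l`, and `M = [ℤ^n → G]` a 1-motive with `e_i`
above `P_i`. The periods of `M` are `2 π i`, the periods and quasi-periods of `A`, the abelian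
integrals `u_i` and the integrals of the second kind `h_k(u_i)`, the periods of the third kind
`∑ k, (h_k(v_l) λ_k - v_lk η_k)`, and the integrals of the third kind `ℓ_il`, which are logarithms

  `exp(ℓ_il) = q_il · θ(u_i - v_l) / (θ(u_i) θ(-v_l)) · exp(∑ k, h_k(v_l) u_ik)`, `q_il` algebraic.

If the `q_il` are arbitrary complex numbers, then `M` is a 1-motive over a field `k ⊆ ℂ` which may
be transcendental, and this case is included below.

If `k` is algebraic, the period conjecture for `M` says that the comparison isomorphism is a generic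
point, over `ℚ̄`, of its torsor under the motivic Galois group of `M`. A consequence is that this
torsor is the smallest torsor, among the torsors over `ℚ̄` of all algebraic groups
`G ⊆ GL(H_B(M))` over `ℚ`, which contains the comparison isomorphism (in the terminology of André:
`Ω^And = Ω^dRB`).

The unipotent radical `W_{-1}` of the motivic Galois group of `M` is described by theorems of Ribet,
Bertolin, Jossen: the quotient `W_{-1} / W_{-2}` consists of the vectors `(x, y)` in
`H_1(A, ℚ)^n × H_1(A, ℚ)^s` which satisfy all linear relations, with endomorphisms of `A` as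
coefficients, of the points `P_i, Q_l` modulo torsion. The brackets of `W_{-1}` are the
`E(y_l, x'_i) - E(y'_l, x_i)`, with the Riemann form `E`. They span `W_{-2}`, except if `M` is
deficient (a phenomenon discovered by Ribet and Jacquinot).

**Theorem.** Let `G` be a group as above. For all `(x, y)` in `W_{-1} / W_{-2}` there is an element
of `G` above it, and `G` contains the derived group of `W_{-1}`.

So `G` contains the unipotent radical of the motivic Galois group of `M` if `M` is not deficient: for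
instance if `A` is not zero and the points `P_i, Q_l` are linearly independent over `End(A)` (then
the unipotent radical is the full Heisenberg group). The numbers `ℓ_il` may be arbitrary. The split
case, where there are no brackets, is `OneMotivesUnipotent`.
-/

open Module Matrix Pool.Agent.Y102 Pool.Agent.R917.OM

noncomputable section

namespace Pool.Agent.Results.MP_12eca1_ag.SemiabelianUnipotent

variable {g n s : ℕ} (A : AbVarG g)

/-- The basis of the Betti realization of the 1-motive: the basis `λ_j` of the lattice of `A`, the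
basis `γ_l` of `H_1(G_m^s)`, the basis `e_i` of `ℤ^n`. -/
abbrev Betti (g n s : ℕ) : Type := Fin (2 * g) ⊕ (Fin s ⊕ Fin n)

/-- The basis of the de Rham cohomology of the 1-motive: the invariant differentials `d z_k` and the
differentials of the second kind `d h_k` on `A`, the invariant differentials of the third kind on the
semiabelian variety, and a basis for `ℤ^n`. -/
abbrev DeRham (g n s : ℕ) : Type := (Fin g ⊕ Fin g) ⊕ (Fin s ⊕ Fin n)

/-- The integral of the second kind `h_k = ∂ k (log θ 0)`. -/
def second (k : Fin g) (z : Fin g → ℂ) : ℂ := pd k (A.θ 0) z / A.θ 0 z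

/-- The comparison isomorphism of the 1-motive. The rows are the Betti side. -/
def periodMatrix (u : Fin n → Fin g → ℂ) (v : Fin s → Fin g → ℂ) (ℓ : Fin n → Fin s → ℂ) :
    Matrix (Betti g n s) (DeRham g n s) ℂ := Matrix.of fun r c =>
  match r, c with
  | Sum.inl j, Sum.inl (Sum.inl k) => A.lam j k
  | Sum.inl j, Sum.inl (Sum.inr k) => A.η j k
  | Sum.inl j, Sum.inr (Sum.inl l) => ∑ k, (second A k (v l) * A.lam j k - v l k * A.η j k)
  | Sum.inr (Sum.inl l), Sum.inr (Sum.inl l') => if l = l' then 2 * Real.pi * Complex.I else 0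
  | Sum.inr (Sum.inr i), Sum.inl (Sum.inl k) => u i k
  | Sum.inr (Sum.inr i), Sum.inl (Sum.inr k) => second A k (u i)
  | Sum.inr (Sum.inr i), Sum.inr (Sum.inl l) => ℓ i l
  | Sum.inr (Sum.inr i), Sum.inr (Sum.inr i') => if i = i' then 1 else 0
  | _, _ => 0

/-- A subgroup of `GL_R(ℂ)` defined by polynomials with rational coefficients. -/
def IsAlgebraicSubgroup {R : Type} [Fintype R] [DecidableEq R] (G : Subgroup (GL R ℂ)) : Prop :=
  ∃ I : Set (MvPolynomial (R × R) ℚ), ∀ x : GL R ℂ, x ∈ G ↔
    ∀ p ∈ I, MvPolynomial.aeval (fun b : R × R => (x : Matrix R R ℂ) b.1 b.2) p = 0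

/-- The comparison isomorphism `c` is an element of a torsor `G · T⁻¹` of `G`, defined over the
algebraic numbers: `T` is a matrix with algebraic entries (an isomorphism between the Betti side and
the de Rham side) such that `c T ∈ G`. -/
def ContainsPeriods (u : Fin n → Fin g → ℂ) (v : Fin s → Fin g → ℂ) (ℓ : Fin n → Fin s → ℂ)
    (G : Subgroup (GL (Betti g n s) ℂ)) : Prop :=
  ∃ T : Matrix (DeRham g n s) (Betti g n s) ℂ, (∀ i j, IsAlgebraic ℚ (T i j)) ∧
    ∃ x ∈ G, (x : Matrix (Betti g n s) (Betti g n s) ℂ) = periodMatrix A u v ℓ * T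

/-- `f` is an endomorphism of `A` up to isogeny: the endomorphism `f` of `H_1(A, ℚ)` is the
restriction of the complex linear map `F` of the tangent space. -/
def IsEndomorphism (f : Module.End ℚ A.H1) (F : (Fin g → ℂ) →ₗ[ℂ] (Fin g → ℂ)) : Prop :=
  ∀ w, A.per (f w) = F (A.per w)

/-- The vectors `x_i`, `y_l` of `H_1(A, ℚ)` satisfy all linear relations, with endomorphisms of `A`
as coefficients, of the points `exp(u_i)`, `exp(v_l)` modulo torsion. -/
def Relations (u : Fin n → Fin g → ℂ) (v : Fin s → Fin g → ℂ) (x : Fin n → A.H1)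
    (y : Fin s → A.H1) : Prop :=
  ∀ (f : Fin n → Module.End ℚ A.H1) (F : Fin n → (Fin g → ℂ) →ₗ[ℂ] (Fin g → ℂ))
    (f' : Fin s → Module.End ℚ A.H1) (F' : Fin s → (Fin g → ℂ) →ₗ[ℂ] (Fin g → ℂ)),
    (∀ i, IsEndomorphism A (f i) (F i)) → (∀ l, IsEndomorphism A (f' l) (F' l)) →
    (∃ w, ∑ i, F i (u i) + ∑ l, F' l (v l) = A.per w) → ∑ i, f i (x i) + ∑ l, f' l (y l) = 0

/-- The Riemann form on the homology. -/
def E (y x : A.H1) : ℂ := riemannForm A.lam A.η (A.per y) (A.per x)

/-- The rational matrix `t` is in the span of the brackets `E(y_l, x'_i) - E(y'_l, x_i)` of the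
vectors which satisfy the relations: all integral linear forms which vanish on the brackets vanish
at `t`. -/
def InDerived (u : Fin n → Fin g → ℂ) (v : Fin s → Fin g → ℂ) (t : Fin n → Fin s → ℚ) : Prop :=
  ∀ m : Fin n → Fin s → ℤ, (∀ x y x' y', Relations A u v x y → Relations A u v x' y' →
    ∑ i, ∑ l, (m i l : ℂ) * (E A (y l) (x' i) - E A (y' l) (x i)) = 0) →
    ∑ i, ∑ l, (m i l : ℚ) * t i l = 0

/-- The element of the Heisenberg group given by the `x_i`, `y_l` and `t_il`: it maps `λ_j` to
`λ_j + ∑ l, E(y_l, λ_j) γ_l` and `e_i` to `e_i + x_i + ∑ l, t_il γ_l`. -/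
def heisenberg (x : Fin n → A.H1) (y : Fin s → A.H1) (t : Fin n → Fin s → ℚ) :
    Matrix (Betti g n s) (Betti g n s) ℂ := 1 + Matrix.of fun r c =>
  match r, c with
  | Sum.inl j, Sum.inr (Sum.inl l) => E A (y l) (Pi.single j 1)
  | Sum.inr (Sum.inr i), Sum.inl j => (x i j : ℂ)
  | Sum.inr (Sum.inr i), Sum.inr (Sum.inl l) => (t i l : ℂ)
  | _, _ => 0

/-- the data of the 1-motive -/
def dat (u : Fin n → Fin g → ℂ) (v : Fin s → Fin g → ℂ) (ℓ : Fin n → Fin s → ℂ) : Dt g n s where
  P := Sum.elim (fun i => Sum.elim (u i) (fun k => second A k (u i)))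
    (fun l => Sum.elim (v l) (fun k => second A k (v l)))
  ℓ := ℓ

theorem per_eb (j : Fin (2 * g)) (k : Fin g) : A.dR (Sum.inl k) (eb A.toAbVar j) = A.lam j k := by
  change A.per (Pi.single j 1) k = _
  unfold AbVar.per
  rw [Fintype.linearCombination_apply_single, one_smul]

theorem eta_eb (j : Fin (2 * g)) (k : Fin g) : A.dR (Sum.inr k) (eb A.toAbVar j) = A.η j k := by
  change A.eta (Pi.single j 1) k = _
  unfold AbVar.eta
  rw [Fintype.linearCombination_apply_single, one_smul]

theorem periodMatrix_eq (u : Fin n → Fin g → ℂ) (v : Fin s → Fin g → ℂ)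
    (ℓ : Fin n → Fin s → ℂ) : periodMatrix A u v ℓ = pmat A.toAbVar (dat A u v ℓ) := by
  ext r c
  rcases r with j | l | i <;> rcases c with (k | k) | l' | i' <;>
    simp [periodMatrix, pmat, dat, per_eb, eta_eb, thd, tau]

theorem E_eq (y x : A.H1) : E A y x = ((A.toAbVar.om y x : ℚ) : ℂ) := A.toAbVar.rf_eq y x

theorem heisenberg_eq (z : Fin n ⊕ Fin s → A.H1) (t : Fin n → Fin s → ℚ) :
    NormedSpace.exp (Pool.Agent.R917.OM.mt ((0, 0, z, fun i l =>
      t i l - 2⁻¹ * A.toAbVar.om (z (Sum.inr l)) (z (Sum.inl i))) : Tup A.toAbVar n s)) =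
      heisenberg A (fun i => z (Sum.inl i)) (fun l => z (Sum.inr l)) t := by
  rw [exp_unip]
  unfold heisenberg
  rw [add_assoc]
  congr 1
  ext r c
  rcases r with j | l | i <;> rcases c with j' | l' | i' <;>
    simp [Pool.Agent.R917.OM.mt, mtQ, op, E_eq, eb]

/-- **Theorem.** Let `G` be an algebraic group over `ℚ` with a torsor over `ℚ̄` which contains the
comparison isomorphism of a 1-motive. For all `x_i`, `y_l` which satisfy the relations of the points
there is a `t₀` such that `G` contains the elements of the Heisenberg group given by `x_i`, `y_l` and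
by all `t` in the class of `t₀` modulo the derived algebra. -/
theorem result (g n s : ℕ) (A : AbVarG g) (u : Fin n → Fin g → ℂ) (v : Fin s → Fin g → ℂ)
    (hu : ∀ i, IsPoint A.toAbVar (u i)) (hv : ∀ l, IsPoint A.toAbVar (v l))
    (ℓ : Fin n → Fin s → ℂ) (G : Subgroup (GL (Betti g n s) ℂ))
    (hG : IsAlgebraicSubgroup G) (hP : ContainsPeriods A u v ℓ G) (x : Fin n → A.H1)
    (y : Fin s → A.H1) (hxy : Relations A u v x y) :
    ∃ t₀ : Fin n → Fin s → ℚ, ∀ t, InDerived A u v (t - t₀) →
      ∃ a ∈ G, (a : Matrix (Betti g n s) (Betti g n s) ℂ) = heisenberg A x y t := by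
  obtain ⟨T, hT, x₀, hx, hxT⟩ := hP
  rw [periodMatrix_eq] at hxT
  have hpt := ptM_of hG hT hx hxT
  have hLg := gg_Lg hpt
  obtain ⟨K₁, hK₁, hrat⟩ := exists_rat_mult A (pt (dat A u v ℓ)) (by
    rintro (i | l)
    · exact Or.inl (hu i)
    · exact Or.inl (hv l))
  obtain ⟨w, f, F, h1, h2, h3, -⟩ := main hLg hrat
  have key : ∀ (x : Fin n → A.H1) (y : Fin s → A.H1), Relations A u v x y →
      (Sum.elim x y : Fin n ⊕ Fin s → A.H1) ∈ uu (gg A.toAbVar n s
      {M : Matrix (Betti g n s) (Betti g n s) ℂ | ∃ x ∈ G, (x : Matrix _ _ ℂ) = M}) := by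
    intro x y hr
    rw [← h2]
    intro p
    rw [Fintype.sum_sum_type]
    simp only [Sum.elim_inl, Sum.elim_inr]
    refine hr _ _ _ _ (fun i => h1 p (Sum.inl i)) (fun i => h1 p (Sum.inr i))
      ⟨∑ q, f p q (w q), ?_⟩
    have h4 := h3 p
    simp only [map_sub] at h4
    rw [Finset.sum_sub_distrib, sub_eq_zero] at h4
    rw [map_sum]
    simp only [h1]
    rw [← h4, Fintype.sum_sum_type]
    rfl
  obtain ⟨t', ht'⟩ := key x y hxy
  refine ⟨fun i l => t' i l + 2⁻¹ * A.toAbVar.om (y l) (x i), fun t ht => ?_⟩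
  have h5 : (fun i l => t i l - (t' i l + 2⁻¹ * A.toAbVar.om (y l) (x i))) ∈
      tt (gg A.toAbVar n s
      {M : Matrix (Betti g n s) (Betti g n s) ℂ | ∃ x ∈ G, (x : Matrix _ _ ℂ) = M}) := by
    refine mem_tt_of_brackets (S := {b | ∃ x y x' y', Relations A u v x y ∧
      Relations A u v x' y' ∧ b = bb (Sum.elim x y) (Sum.elim x' y')}) ?_ ?_
    · rintro _ ⟨x, y, x', y', hr, hr', rfl⟩
      exact bb_mem hLg (key x y hr) (key x' y' hr')
    · intro m hm
      refine ht m fun x y x' y' hr hr' => ?_
      have h6 := hm _ ⟨x, y, x', y', hr, hr', rfl⟩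
      have h7 := congrArg (fun q : ℚ => (q : ℂ)) h6
      simp only [bb, Sum.elim_inl, Sum.elim_inr] at h7
      push_cast at h7
      simp only [E_eq]
      exact h7
  have h6 : ((0, 0, Sum.elim x y, fun i l => t i l - 2⁻¹ * A.toAbVar.om
      ((Sum.elim x y : Fin n ⊕ Fin s → A.H1) (Sum.inr l))
      ((Sum.elim x y : Fin n ⊕ Fin s → A.H1) (Sum.inl i))) : Tup A.toAbVar n s) ∈
      gg A.toAbVar n s
      {M : Matrix (Betti g n s) (Betti g n s) ℂ | ∃ x ∈ G, (x : Matrix _ _ ℂ) = M} := by
    have h7 := Submodule.add_mem _ ht' (mem_tt.1 h5)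
    convert h7 using 1
    refine Prod.ext ?_ (Prod.ext ?_ (Prod.ext ?_ ?_))
    · simp
    · simp
    · simp
    · funext i l
      simp only [Sum.elim_inl, Sum.elim_inr, Prod.snd_add, Pi.add_apply]
      ring
  obtain ⟨a, ha1, ha2⟩ := exp_tup hpt.grp h6
  exact ⟨a, ha1, ha2.trans (heisenberg_eq A _ t)⟩

end Pool.Agent.Results.MP_12eca1_ag.SemiabelianUnipotent
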